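import Pool.Agent.Helper73.HU.St

/-! # HU module EX: existence of small cofinal subsets in HOD -/

namespace Pool.Agent.Helper86.HU.EX

open Ordinal Cardinal ZFSet Order Pool.Agent.Helper73.HODC Pool.Agent.Helper73.HE
  Pool.Agent.Helper73.HM Pool.Agent.Helper73.HU

/-- a nondecreasing cofinal map preserves the cofinality -/
theorem cof_eq_of_map {a γ : Ordinal.{0}} {F : Ordinal.{0} → Ordinal.{0}}
    (h1 : ∀ ξ < γ, F ξ < a) (h2 : ∀ ξ η, ξ ≤ η → η < γ → F ξ ≤ F η)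
    (h3 : ∀ β < a, ∃ ξ < γ, β ≤ F ξ) (h4 : ∀ ζ < γ, ∃ β < a, ∀ ξ < ζ, F ξ < β) :
    a.cof = γ.cof := by
  have e : Order.cof (Set.Iio a) = Order.cof (Set.Iio γ) := by
    apply le_antisymm
    · rw [Order.le_cof_iff]
      intro s hs
      let f : Set.Iio γ → Set.Iio a := fun x => ⟨F x.1, h1 x.1 x.2⟩
      refine (Order.cof_le (s := f '' s) ?_).trans Cardinal.mk_image_le
      intro β
      obtain ⟨ξ, hξ, h5⟩ := h3 β.1 β.2
      obtain ⟨c, hc, hc'⟩ := hs ⟨ξ, hξ⟩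
      exact ⟨f c, ⟨c, hc, rfl⟩, h5.trans (h2 ξ c.1 hc' c.2)⟩
    · rw [Order.le_cof_iff]
      intro s hs
      choose g hg hg' using h3
      let f : Set.Iio a → Set.Iio γ := fun x => ⟨g x.1 x.2, hg x.1 x.2⟩
      refine (Order.cof_le (s := f '' s) ?_).trans Cardinal.mk_image_le
      intro ξ
      obtain ⟨β, hβ, h5⟩ := h4 ξ.1 ξ.2
      obtain ⟨c, hc, hc'⟩ := hs ⟨β, hβ⟩
      refine ⟨f c, ⟨c, hc, rfl⟩, ?_⟩
      by_contra hcon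
      have h6 : g c.1 c.2 < ξ.1 := not_le.1 hcon
      have h7 : F (g c.1 c.2) < β := h5 _ h6
      have h8 : β ≤ c.1 := hc'
      exact absurd (h8.trans (hg' c.1 c.2)) (not_le.2 h7)
  rw [Ordinal.cof_Iio, Ordinal.cof_Iio, ← Ordinal.lift_cof, ← Ordinal.lift_cof] at e
  exact Cardinal.lift_injective e

/-- a function in HOD, as a definable relation -/
theorem dpf {γ : Ordinal.{0}} {f : Ordinal.{0} → Ordinal.{0}} (h : HOD (graph γ f)) (i j : ℕ) :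
    DP (fun v => (v i).rank < γ ∧ f (v i).rank = (v j).rank) := by
  refine ((DP.rank_lt_ord i γ).and (dp_subst_HOD
    (Q := fun x v => fn x (v i).rank = (v j).rank) (DP.fn 0 (i + 1) (j + 1)) h)).congr
    fun v => ?_
  refine and_congr_right fun h1 => ?_
  rw [fn_graph h1]

theorem hod_of_dp {γ : Ordinal.{0}} {f : Ordinal.{0} → Ordinal.{0}}
    (h : DP (fun v => (v 0).rank < γ ∧ f (v 0).rank = (v 1).rank)) : HOD (graph γ f) :=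
  HOD_graph _ _ ((odRel_iff_DP _).2 (h.congr fun _ => and_congr_right fun _ => eq_comm))

/-- the least element of a definable set -/
theorem dp_sInf {S : Ordinal.{0} → Set Ordinal.{0}}
    (h : DP (fun v => (v 1).rank ∈ S (v 0).rank)) (i j : ℕ) :
    DP (fun v => sInf (S (v i).rank) = (v j).rank) := by
  have h1 : DP (fun v => (v j).rank ∈ S (v i).rank) := h.rename (fun n => if n = 0 then i else j)
  have h2 : DP (fun v => (v 0).rank ∈ S (v (i + 1)).rank) :=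
    h.rename (fun n => if n = 0 then i + 1 else 0)
  refine ((h1.and (DP.allO (Q := fun d v => d ∈ S (v i).rank → (v j).rank ≤ d)
    (h2.imp (DP.rank_le (j + 1) 0)))).or ((DP.allO (Q := fun d v => ¬ d ∈ S (v i).rank)
    h2.not).and (DP.of (dfn_rank_zero j)))).congr fun v => ?_
  exact sInf_eq_iff _ _

theorem ex : StEX := by
  intro τ τ' a hτ hn ha haτ hcof
  have ha0 : 0 < a := pos_iff_ne_zero.2 (Ordinal.isSuccLimit_iff.1 ha).1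
  let Γ : Set Ordinal.{0} := {γ | ∃ f : Ordinal.{0} → Ordinal.{0}, HOD (graph γ f) ∧
    (∀ ξ < γ, f ξ < a) ∧ ∀ β < a, ∃ ξ < γ, β ≤ f ξ}
  have haΓ : a ∈ Γ := ⟨id, hod_of_dp ((DP.rank_lt_ord 0 a).and (DP.rank_eq 0 1)),
    fun ξ hξ => hξ, fun β hβ => ⟨β, hβ, le_rfl⟩⟩
  obtain ⟨f, hf, hfa, hfc⟩ := csInf_mem (s := Γ) ⟨a, haΓ⟩
  have hmin : ∀ ζ < sInf Γ, ζ ∉ Γ := fun ζ hζ h => absurd (csInf_le' h) (not_le.2 hζ)
  have hγa : sInf Γ ≤ a := csInf_le' haΓ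
  generalize sInf Γ = γ at hf hfa hfc hmin hγa
  have hdf := dpf hf
  have hbd : ∀ ζ < γ, ∃ s < a, ∀ ξ < ζ, f ξ < s := by
    intro ζ hζ
    by_contra hcon
    push Not at hcon
    refine hmin ζ hζ ⟨f, hod_of_dp ?_, fun ξ hξ => hfa ξ (hξ.trans hζ), fun β hβ => ?_⟩
    · exact ((DP.rank_lt_ord 0 ζ).and (hdf 0 1)).congr fun v =>
        ⟨fun h => ⟨h.1, h.1.trans hζ, h.2⟩, fun h => ⟨h.1, h.2.2⟩⟩
    · obtain ⟨ξ, h1, h2⟩ := hcon β hβ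
      exact ⟨ξ, h1, h2⟩
  have hγ0 : γ ≠ 0 := by
    intro h0
    obtain ⟨ξ, hξ, -⟩ := hfc 0 ha0
    rw [h0] at hξ
    exact not_lt_zero hξ
  have hγl : IsSuccLimit γ := by
    rw [Ordinal.isSuccLimit_iff, isSuccPrelimit_iff_succ_lt]
    refine ⟨hγ0, fun ζ hζ => ?_⟩
    by_contra hcon
    have he : γ = succ ζ := le_antisymm (not_lt.1 hcon) (succ_le_of_lt hζ)
    obtain ⟨s, hs, hs'⟩ := hbd ζ hζ
    obtain ⟨ξ, hξ, h1⟩ := hfc (succ (max s (f ζ))) (ha.succ_lt (max_lt hs (hfa ζ hζ)))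
    rw [he] at hξ
    rcases lt_or_eq_of_le (lt_succ_iff.1 hξ) with h2 | h2
    · have h3 := (succ_le_iff.1 h1).trans (hs' ξ h2)
      exact absurd (le_max_left s (f ζ)) (not_le.2 h3)
    · rw [h2] at h1
      exact absurd (le_max_right s (f ζ)) (not_le.2 (succ_le_iff.1 h1))
  -- the nondecreasing function
  let SS : Ordinal.{0} → Set Ordinal.{0} := fun ξ => {s | ∀ ξ', ξ' ≤ ξ → ξ' < γ → f ξ' ≤ s}
  let F : Ordinal.{0} → Ordinal.{0} := fun ξ => sInf (SS ξ)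
  have hSa : ∀ ξ < γ, ∃ s < a, s ∈ SS ξ := by
    intro ξ hξ
    obtain ⟨s, hs, hs'⟩ := hbd (succ ξ) (hγl.succ_lt hξ)
    exact ⟨s, hs, fun ξ' h1 _ => (hs' ξ' (lt_succ_iff.2 h1)).le⟩
  have hFa : ∀ ξ < γ, F ξ < a := by
    intro ξ hξ
    obtain ⟨s, hs, hs'⟩ := hSa ξ hξ
    exact (csInf_le' hs').trans_lt hs
  have hFm : ∀ ξ < γ, F ξ ∈ SS ξ := by
    intro ξ hξ
    obtain ⟨s, hs, hs'⟩ := hSa ξ hξ
    exact csInf_mem ⟨s, hs'⟩
  have hfF : ∀ ξ < γ, f ξ ≤ F ξ := fun ξ hξ => hFm ξ hξ ξ le_rfl hξ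
  have hmono : ∀ ξ η, ξ ≤ η → η < γ → F ξ ≤ F η := by
    intro ξ η h1 h2
    exact csInf_le' (fun ξ' h3 h4 => hFm η h2 ξ' (h3.trans h1) h4)
  have hFc : ∀ β < a, ∃ ξ < γ, β ≤ F ξ := by
    intro β hβ
    obtain ⟨ξ, h1, h2⟩ := hfc β hβ
    exact ⟨ξ, h1, h2.trans (hfF ξ h1)⟩
  have hFb : ∀ ζ < γ, ∃ β < a, ∀ ξ < ζ, F ξ < β := by
    intro ζ hζ
    refine ⟨succ (F ζ), ha.succ_lt (hFa ζ hζ), fun ξ hξ => ?_⟩
    exact lt_succ_iff.2 (hmono ξ ζ hξ.le hζ)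
  have hdS : DP (fun v => (v 1).rank ∈ SS (v 0).rank) := by
    refine DP.allO (Q := fun x v => x ≤ (v 0).rank → x < γ → f x ≤ (v 1).rank) ?_
    refine (DP.rank_le 0 1).imp ?_
    have h1 : DP (fun v => ∃ z : Ordinal.{0}, ((v 0).rank < γ ∧ f (v 0).rank = z) ∧
        z ≤ (v 2).rank) := by
      refine DP.exO (Q := fun z v => ((v 0).rank < γ ∧ f (v 0).rank = z) ∧ z ≤ (v 2).rank) ?_
      exact (hdf 1 0).and (DP.rank_le 0 3)
    refine ((DP.rank_lt_ord 0 γ).imp h1).congr fun v => ?_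
    constructor
    · intro h hx
      exact ⟨_, ⟨hx, rfl⟩, h hx⟩
    · intro h hx
      obtain ⟨z, ⟨-, rfl⟩, h2⟩ := h hx
      exact h2
  have hF : HOD (graph γ F) := hod_of_dp ((DP.rank_lt_ord 0 γ).and (dp_sInf hdS 0 1))
  have hdF := dpf hF
  -- `γ` is regular in HOD
  have hreg : HODReg γ := by
    refine ⟨hγl, ?_⟩
    rintro ⟨-, ρ, hρ, k, hk, hkc, hkH⟩
    refine hmin ρ hρ ⟨fun x => F (k x), hod_of_dp ?_, fun ξ hξ => hFa _ (hk ξ hξ),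
      fun β hβ => ?_⟩
    · have h1 : DP (fun v => ∃ z : Ordinal.{0}, ((v 0).rank < ρ ∧ k (v 0).rank = z) ∧
          (z < γ ∧ F z = (v 1).rank)) := by
        refine DP.exO (Q := fun z v => ((v 0).rank < ρ ∧ k (v 0).rank = z) ∧
          (z < γ ∧ F z = (v 1).rank)) ?_
        exact (dpf hkH 1 0).and (hdF 0 2)
      refine h1.congr fun v => ?_
      constructor
      · rintro ⟨h2, h3⟩
        exact ⟨_, ⟨h2, rfl⟩, hk _ h2, h3⟩
      · rintro ⟨z, ⟨h2, rfl⟩, -, h3⟩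
        exact ⟨h2, h3⟩
    · obtain ⟨ξ, h1, h2⟩ := hFc β hβ
      obtain ⟨η, h3, h4⟩ := hkc ξ h1
      exact ⟨η, h3, h2.trans (hmono ξ (k η) h4 (hk η h3))⟩
  have hγτ : γ < τ := by
    have h1 : ¬ τ < γ := fun h => hn.2.2 γ h (hγa.trans_lt haτ) hreg
    refine lt_of_le_of_ne (not_lt.1 h1) ?_
    rintro rfl
    exact hcof (cof_eq_of_map hFa hmono hFc hFb)
  -- the range of `F`
  have hdR : DPs {b | ∃ ξ, ξ < γ ∧ F ξ = b} :=
    DP.exO (Q := fun ξ v => ξ < γ ∧ F ξ = (v 0).rank) (hdF 0 1)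
  refine ⟨ordSet τ' {b | ∃ ξ, ξ < γ ∧ F ξ = b}, od_ordSet hdR τ', ordSet_sub _ _, ?_, ?_, ?_⟩
  · intro b hb
    obtain ⟨-, ξ, hξ, rfl⟩ := mem_st_ordSet.1 hb
    exact hFa ξ hξ
  · intro β hβ
    obtain ⟨ξ, h1, h2⟩ := hFc (succ β) (ha.succ_lt hβ)
    exact ⟨F ξ, mem_st_ordSet.2 ⟨(hFa ξ h1).trans haτ, ξ, h1, rfl⟩, succ_le_iff.1 h2, hFa ξ h1⟩
  · refine ⟨γ, hγτ, fun b => sInf {ξ | ξ < γ ∧ F ξ = b}, ?_, ?_⟩
    · intro b hb
      obtain ⟨-, ξ, h1, h2⟩ := mem_st_ordSet.1 hb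
      exact (csInf_mem (s := {ξ | ξ < γ ∧ F ξ = b}) ⟨ξ, h1, h2⟩).1
    · intro b hb b' hb' hbb
      obtain ⟨-, ξ, h1, h2⟩ := mem_st_ordSet.1 hb
      obtain ⟨-, ξ', h1', h2'⟩ := mem_st_ordSet.1 hb'
      obtain ⟨h3, h4⟩ := csInf_mem (s := {ξ | ξ < γ ∧ F ξ = b}) ⟨ξ, h1, h2⟩
      obtain ⟨h3', h4'⟩ := csInf_mem (s := {ξ | ξ < γ ∧ F ξ = b'}) ⟨ξ', h1', h2'⟩
      by_contra hcon
      have h5 := hmono _ _ (not_lt.1 hcon) h3
      rw [h4, h4'] at h5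
      exact absurd h5 (not_le.2 hbb)

end Pool.Agent.Helper86.HU.EX
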