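import Pool.Agent.Helper73.HU.St
import Pool.Agent.Helper73.HM.Fin
import Pool.Agent.Helper29.HM.NM

/-! # HU module PF: image of an ultrafilter of HOD -/

namespace Pool.Agent.Helper86.HU.PF

open Ordinal Cardinal ZFSet Order Pool.Agent.Helper73.HODC Pool.Agent.Helper73.HE
  Pool.Agent.Helper73.HM Pool.Agent.Helper73.HU Pool.Agent.Helper29.HM.NM

/-- preimages of definable sets -/
theorem dps_pre {φ : Ordinal.{0} → Ordinal.{0}}
    (hφ : DP (fun v => φ (v 0).rank = (v 1).rank)) {S : Set Ordinal.{0}} (hS : DPs S) :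
    DPs {a | φ a ∈ S} := by
  refine (DP.exO (Q := fun z v => φ (v 0).rank = z ∧ z ∈ S)
    ((hφ.rename (fun n => if n = 0 then 1 else 0)).and (DPs.at hS 0))).congr fun v => ?_
  constructor
  · intro h
    exact ⟨_, rfl, h⟩
  · rintro ⟨z, rfl, h⟩
    exact h

theorem dps_and {A B : Set Ordinal.{0}} (hA : DPs A) (hB : DPs B) : DPs {a | a ∈ A ∧ a ∈ B} :=
  DP.and hA hB

theorem dps_compl {A : Set Ordinal.{0}} (hA : DPs A) : DPs Aᶜ := DP.not hA

section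
variable {τ : Ordinal.{0}} {ρ : Cardinal.{0}} {U : ZFSet.{0}}

theorem mono_mem (hU : HODUnif τ ρ U) {A B : Set Ordinal.{0}} (hB : DPs B)
    (hA : ordSet τ A ∈ U) (h : ∀ a < τ, a ∈ A → a ∈ B) : ordSet τ B ∈ U := by
  refine hU.up _ hA _ (ordSet_mem hB τ) fun z hz => ?_
  obtain ⟨a, h1, h2, rfl⟩ := (mem_ordSet _ _ _).1 hz
  exact (mem_ordSet _ _ _).2 ⟨a, h1, h a h1 h2, rfl⟩

theorem two_lt (hρ : ℵ₀ ≤ ρ) : (2 : Ordinal.{0}) < ρ.ord := by
  have h1 : (ω : Ordinal.{0}) ≤ ρ.ord := by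
    rw [← Cardinal.ord_aleph0]
    exact Cardinal.ord_le_ord.2 hρ
  have h2 : (2 : Ordinal.{0}) < ω := by
    have := Ordinal.natCast_lt_omega0 2
    exact_mod_cast this
  exact h2.trans_le h1

theorem inter_mem' (hU : HODUnif τ ρ U) (hρ : ℵ₀ ≤ ρ) {A B : Set Ordinal.{0}} (hA : DPs A)
    (hB : DPs B) (hAU : ordSet τ A ∈ U) (hBU : ordSet τ B ∈ U) :
    ordSet τ {a | a ∈ A ∧ a ∈ B} ∈ U := by
  have h1 := hU.complete 2 (two_lt hρ) (fun ξ => {a | (ξ = 0 ∧ a ∈ A) ∨ (¬ ξ = 0 ∧ a ∈ B)})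
    (HOD_seqSet _ _ _ ((odRel_iff_DP _).2 ((DP.rank_lt_ord 0 2).and ((DP.rank_lt_ord 1 τ).and
      (((DP.rank_eq_ord 0 0).and (DPs.at hA 1)).or
        ((DP.rank_eq_ord 0 0).not.and (DPs.at hB 1)))))))
    (by
      intro ξ _
      by_cases h0 : ξ = 0
      · refine mono_mem hU (A := A) ?_ hAU fun a _ ha => Or.inl ⟨h0, ha⟩
        refine hA.congr fun v => ?_
        simp [h0]
      · refine mono_mem hU (A := B) ?_ hBU fun a _ ha => Or.inr ⟨h0, ha⟩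
        refine hB.congr fun v => ?_
        simp [h0])
  refine mono_mem hU (DP.and hA hB) h1 fun a _ ha => ?_
  refine ⟨?_, ?_⟩
  · rcases ha 0 (by norm_num) with h2 | h2
    · exact h2.2
    · exact absurd rfl h2.1
  · rcases ha 1 (by norm_num) with h2 | h2
    · exact absurd h2.1 one_ne_zero
    · exact h2.2

theorem sdiff_ordSet (τ : Ordinal.{0}) (A : Set Ordinal.{0}) :
    τ.toZFSet \ ordSet τ A = ordSet τ Aᶜ := by
  have h5 : τ.toZFSet \ ordSet τ A ⊆ τ.toZFSet := fun z hz => (ZFSet.mem_sdiff.1 hz).1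
  refine eq_ordSet h5 fun a ha => ?_
  rw [mem_st_iff h5, ZFSet.mem_sdiff, mem_ordSet]
  constructor
  · rintro ⟨-, h⟩ h'
    exact h ⟨a, ha, h', rfl⟩
  · intro h
    refine ⟨mem_toZFSet_iff.2 ⟨a, ha, rfl⟩, ?_⟩
    rintro ⟨b, -, h2, h3⟩
    rw [← toZFSet_injective h3] at h2
    exact h h2

theorem compl_mem (hU : HODUnif τ ρ U) {A : Set Ordinal.{0}} (hA : DPs A) :
    ordSet τ A ∈ U ↔ ordSet τ Aᶜ ∉ U := by
  rw [hU.ultra _ (ordSet_mem hA τ), sdiff_ordSet]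

theorem exists_of_mem (hU : HODUnif τ ρ U) {A : Set Ordinal.{0}} (hA : DPs A)
    (hAU : ordSet τ A ∈ U) : ∃ a < τ, a ∈ A := by
  by_contra hcon
  push Not at hcon
  refine (compl_mem hU hA).1 hAU (mono_mem hU (A := A) hA.not hAU fun a h1 _ => hcon a h1)

end

theorem pf (h : StHP) : StPF := by
  intro τ τ' ρ U φ hU hρ _ hφ hlt hge
  have hltD : DPs {a | φ a < τ} := dps_pre hφ (S := {a | a < τ}) (DP.rank_lt_ord 0 τ)
  have hmem : ∀ Z, Z ∈ ZFSet.sep (fun Z => ordSet τ' {a | φ a ∈ st Z} ∈ U) (hodPow τ) ↔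
      Z ∈ hodPow τ ∧ ordSet τ' {a | φ a ∈ st Z} ∈ U := fun Z => ZFSet.mem_sep
  have hpre : ∀ Z ∈ hodPow τ, DPs {a | φ a ∈ st Z} := by
    intro Z hZ
    obtain ⟨h1, h2⟩ := mem_hodPow.1 hZ
    exact dps_pre hφ (dps_ordSet h1 h2)
  refine ⟨ZFSet.sep (fun Z => ordSet τ' {a | φ a ∈ st Z} ∈ U) (hodPow τ),
    ?_, ?_, ?_, ?_, ?_, ?_⟩
  · -- hod
    refine HOD.intro _ (DP.od ?_) fun y hy => ?_
    · refine (DP.all (Q := fun z v => z ∈ v 0 ↔ (z ∈ hodPow τ ∧ ∃ y : ZFSet.{0}, y ∈ U ∧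
        ∀ a : Ordinal.{0}, a ∈ st y ↔ (a < τ' ∧ ∃ b : Ordinal.{0}, φ a = b ∧
          b ∈ st z))) ?_).congr ?_
      · refine (DP.mem 0 1).iff ((dp_subst_at (Q := fun x v => v 0 ∈ hodPow x)
          (DP.of (h.2 1 0)) τ).and ?_)
        refine DP.ex (Q := fun y v => y ∈ U ∧ ∀ a : Ordinal.{0}, a ∈ st y ↔
          (a < τ' ∧ ∃ b : Ordinal.{0}, φ a = b ∧ b ∈ st (v 0))) ?_
        refine (dp_subst_HOD (Q := fun x v => v 0 ∈ x) (DP.mem 1 0) hU.hod).and ?_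
        refine DP.allO (Q := fun a v => a ∈ st (v 0) ↔
          (a < τ' ∧ ∃ b : Ordinal.{0}, φ a = b ∧ b ∈ st (v 1))) ?_
        refine (DP.st 0 1).iff ((DP.rank_lt_ord 0 τ').and ?_)
        refine DP.exO (Q := fun b v => φ (v 0).rank = b ∧ b ∈ st (v 2)) ?_
        exact (hφ.rename (fun n => if n = 0 then 1 else 0)).and (DP.st 0 3)
      · intro v
        rw [ZFSet.ext_iff]
        refine forall_congr' fun z => iff_congr Iff.rfl ?_
        rw [hmem z]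
        refine and_congr_right fun hz => ?_
        constructor
        · intro h1
          refine ⟨_, h1, fun a => ?_⟩
          rw [mem_st_ordSet]
          refine and_congr_right fun _ => ?_
          exact ⟨fun h2 => ⟨_, rfl, h2⟩, by rintro ⟨b, rfl, h2⟩; exact h2⟩
        · rintro ⟨y, hy, h1⟩
          have h2 : y = ordSet τ' {a | φ a ∈ st z} := by
            refine ext_st (mem_hodPow.1 (hU.sub y hy)).1 (ordSet_sub _ _) fun a => ?_
            rw [h1, mem_st_ordSet]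
            refine and_congr_right fun _ => ?_
            exact ⟨by rintro ⟨b, rfl, h2⟩; exact h2, fun h2 => ⟨_, rfl, h2⟩⟩
          rw [← h2]
          exact hy
    · have h1 := mem_hodPow.1 ((hmem y).1 hy).1
      exact hod_of_sub h1.1 h1.2
  · -- sub
    intro X hX
    exact ((hmem X).1 hX).1
  · -- up
    intro X hX Y hY hXY
    obtain ⟨h1, h2⟩ := (hmem X).1 hX
    exact (hmem Y).2 ⟨hY, mono_mem hU (hpre Y hY) h2 fun a _ ha => st_mono hXY ha⟩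
  · -- ultra
    intro X hX
    obtain ⟨hd, hd'⟩ := diff_mem hX
    rw [hmem, hmem]
    constructor
    · rintro ⟨-, h1⟩ ⟨-, h2⟩
      have h3 := inter_mem' hU hρ (hpre X hX) (hpre _ hd) h1 h2
      obtain ⟨a, -, h4, h5⟩ := exists_of_mem hU (dps_and (hpre X hX) (hpre _ hd)) h3
      exact (hd' (φ a) (lt_of_mem_st (mem_hodPow.1 hX).1 h4)).1 h5 h4
    · intro h1
      refine ⟨hX, ?_⟩
      by_contra h2
      have h3 : ordSet τ' {a | φ a ∈ st X}ᶜ ∈ U := by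
        by_contra h4
        exact h2 ((compl_mem hU (hpre X hX)).2 h4)
      have h4 := inter_mem' hU hρ (dps_compl (hpre X hX)) hltD h3 hlt
      refine h1 ⟨hd, mono_mem hU (hpre _ hd) h4 fun a _ ha => ?_⟩
      exact (hd' (φ a) ha.2).2 ha.1
  · -- tail
    intro β hβ
    have hD : DPs {a : Ordinal.{0} | β ≤ a} :=
      (DP.rank_lt_ord 0 β).not.congr fun v => (not_lt (a := (v 0).rank) (b := β)).symm
    rw [hmem]
    refine ⟨ordSet_mem hD τ, ?_⟩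
    have h1 := inter_mem' hU hρ hltD (dps_pre hφ hD) hlt (hge β hβ)
    refine mono_mem hU (hpre _ (ordSet_mem hD τ)) h1 fun a _ ha => ?_
    exact mem_st_ordSet.2 ⟨ha.1, ha.2⟩
  · -- complete
    intro γ hγ F hF hFU
    have hrel := (odRel_iff_DP _).1 (odRel_of_hod hF)
    have hrel' : DP (fun v => (v 0).rank < γ ∧ (v 1).rank < τ' ∧
        (v 1).rank ∈ {a | φ a < τ ∧ φ a ∈ F (v 0).rank}) := by
      have h1 : DP (fun v => ∃ z : Ordinal.{0}, φ (v 1).rank = z ∧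
          ((v 0).rank < γ ∧ z < τ ∧ z ∈ F (v 0).rank)) := by
        refine DP.exO (Q := fun z v => φ (v 1).rank = z ∧
          ((v 0).rank < γ ∧ z < τ ∧ z ∈ F (v 0).rank)) ?_
        exact (hφ.rename (fun n => if n = 0 then 2 else 0)).and
          (hrel.rename (fun n => if n = 0 then 1 else 0))
      refine ((DP.rank_lt_ord 1 τ').and h1).congr fun v => ?_
      constructor
      · rintro ⟨h2, h3, h4, h5⟩
        exact ⟨h3, _, rfl, h2, h4, h5⟩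
      · rintro ⟨h2, z, rfl, h3, h4, h5⟩
        exact ⟨h3, h2, h4, h5⟩
    have h1 := hU.complete γ hγ (fun ξ => {a | φ a < τ ∧ φ a ∈ F ξ})
      (HOD_seqSet _ _ _ ((odRel_iff_DP _).2 hrel')) (by
        intro ξ hξ
        have h2 := ((hmem _).1 (hFU ξ hξ)).2
        have h3 : {a | φ a ∈ st (ordSet τ (F ξ))} = {a | φ a < τ ∧ φ a ∈ F ξ} := by
          ext a
          exact mem_st_ordSet
        rw [h3] at h2
        exact h2)
    have hD1 : DPs {a | a < τ ∧ ∀ ξ < γ, a ∈ F ξ} := by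
      have h2 : DP (fun v => ∀ ξ : Ordinal.{0}, ξ < γ → (ξ < γ ∧ (v 0).rank < τ ∧
          (v 0).rank ∈ F ξ)) := by
        refine DP.allO (Q := fun ξ v => ξ < γ → (ξ < γ ∧ (v 0).rank < τ ∧
          (v 0).rank ∈ F ξ)) ?_
        exact (DP.rank_lt_ord 0 γ).imp hrel
      refine ((DP.rank_lt_ord 0 τ).and h2).congr fun v => ?_
      constructor
      · rintro ⟨h3, h4⟩
        exact ⟨h3, fun ξ hξ => ⟨hξ, h3, h4 ξ hξ⟩⟩
      · rintro ⟨h3, h4⟩
        exact ⟨h3, fun ξ hξ => (h4 ξ hξ).2.2⟩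
    have hD2 : DPs {a | a < τ' ∧ ∀ ξ < γ, φ a < τ ∧ φ a ∈ F ξ} := by
      have h2 : DP (fun v => ∀ ξ : Ordinal.{0}, ξ < γ → (ξ < γ ∧ (v 0).rank < τ' ∧
          (v 0).rank ∈ {a | φ a < τ ∧ φ a ∈ F ξ})) := by
        refine DP.allO (Q := fun ξ v => ξ < γ → (ξ < γ ∧ (v 0).rank < τ' ∧
          (v 0).rank ∈ {a | φ a < τ ∧ φ a ∈ F ξ})) ?_
        exact (DP.rank_lt_ord 0 γ).imp hrel'
      refine ((DP.rank_lt_ord 0 τ').and h2).congr fun v => ?_
      constructor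
      · rintro ⟨h3, h4⟩
        exact ⟨h3, fun ξ hξ => ⟨hξ, h3, h4 ξ hξ⟩⟩
      · rintro ⟨h3, h4⟩
        exact ⟨h3, fun ξ hξ => (h4 ξ hξ).2.2⟩
    have hE : ordSet τ {a | ∀ ξ < γ, a ∈ F ξ} = ordSet τ {a | a < τ ∧ ∀ ξ < γ, a ∈ F ξ} := by
      refine ext_st (ordSet_sub _ _) (ordSet_sub _ _) fun a => ?_
      rw [mem_st_ordSet, mem_st_ordSet]
      exact ⟨fun h => ⟨h.1, h.1, h.2⟩, fun h => ⟨h.1, h.2.2⟩⟩
    rw [hE, hmem]
    refine ⟨ordSet_mem hD1 τ, ?_⟩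
    have h2 : ordSet τ' {a | a < τ' ∧ ∀ ξ < γ, φ a < τ ∧ φ a ∈ F ξ} ∈ U :=
      mono_mem hU hD2 h1 fun a h3 h4 => ⟨h3, h4⟩
    have h3 := inter_mem' hU hρ hltD hD2 hlt h2
    refine mono_mem hU (hpre _ (ordSet_mem hD1 τ)) h3 fun a _ ha => ?_
    exact mem_st_ordSet.2 ⟨ha.1, ha.1, fun ξ hξ => (ha.2.2 ξ hξ).2⟩

end Pool.Agent.Helper86.HU.PF
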