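import Pool.Agent.Helper86.HU.EX

/-! # HU module ME: the main combinatorial step -/

namespace Pool.Agent.Helper86.HU.ME

open Ordinal Cardinal ZFSet Order Pool.Agent.Helper73.HODC Pool.Agent.Helper73.HE
  Pool.Agent.Helper73.HM Pool.Agent.Helper73.HU Pool.Agent.Helper86.HU.EX

/-- the enumeration is increasing in the index -/
theorem enum_lt {E : Set Ordinal.{0}} {i i' β β' : Ordinal.{0}} (h : Enum E i β)
    (h' : Enum E i' β') (hi : i < i') : β < β' := by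
  obtain ⟨-, g, k1, k2, k3⟩ := h'
  have h1 := enum_restrict k1 k2 k3 hi
  rw [enum_unique h h1]
  exact (k1 i hi).2

theorem enum_le {E : Set Ordinal.{0}} {i i' β β' : Ordinal.{0}} (h : Enum E i β)
    (h' : Enum E i' β') (hi : i ≤ i') : β ≤ β' := by
  rcases lt_or_eq_of_le hi with h1 | h1
  · exact (enum_lt h h' h1).le
  · subst h1
    exact (enum_unique h h').le

theorem dp_enum_succ {E : Set Ordinal.{0}} (hE : DPs E) (i j : ℕ) :
    DP (fun v => Enum E ((v i).rank + 1) (v j).rank) := by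
  have h1 : DP (fun v => ∃ s : Ordinal.{0}, ((v i).rank < s ∧ ∀ t, t < s → ¬ (v i).rank < t) ∧
      Enum E s (v j).rank) := by
    refine DP.exO (Q := fun s v => ((v i).rank < s ∧ ∀ t, t < s → ¬ (v i).rank < t) ∧
      Enum E s (v j).rank) ?_
    refine ((DP.rank_lt (i + 1) 0).and ?_).and ?_
    · refine DP.allO (Q := fun t v => t < (v 0).rank → ¬ (v (i + 1)).rank < t) ?_
      exact (DP.rank_lt 0 1).imp (DP.rank_lt (i + 2) 0).not
    · exact (DP.enum hE).rename (fun n => if n = 0 then 0 else j + 1)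
  refine h1.congr fun v => ?_
  constructor
  · intro h
    exact ⟨(v i).rank + 1, ⟨lt_add_one _, fun t ht => not_lt.2 (lt_add_one_iff.1 ht)⟩, h⟩
  · rintro ⟨s, ⟨h4, h5⟩, h6⟩
    have : s = (v i).rank + 1 := by
      refine le_antisymm ?_ (add_one_le_iff.2 h4)
      by_contra h7
      exact h5 _ (not_le.1 h7) (lt_add_one _)
    rw [← this]
    exact h6

theorem me (h1 : StWN) (h2 : StEB) (h3 : StBD) : StME := by
  intro τ τ' A C hcof hτ hτ' hlt hA hAlt hat hC hCu hCo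
  have hlim' : IsSuccLimit τ' := hτ'.1
  have hlim : IsSuccLimit τ := hτ.1
  let HH : Ordinal.{0} → Set Ordinal.{0} := fun ξ =>
    {η | ¬ Stat {a | a ∈ A ∧ ¬ ∃ b, C a b ∧ ξ ≤ b ∧ b ≤ η} τ'}
  let H : Ordinal.{0} → Ordinal.{0} := fun ξ => sInf (HH ξ)
  have hHne : ∀ ξ < τ', ∃ η < τ', η ∈ HH ξ := fun ξ hξ =>
    h1 τ' A C hcof hA hAlt hat hC hCu ξ hξ
  have hHlt : ∀ ξ < τ', H ξ < τ' := by
    intro ξ hξ
    obtain ⟨η, h4, h5⟩ := hHne ξ hξ
    exact (csInf_le' h5).trans_lt h4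
  have hHmem : ∀ ξ < τ', H ξ ∈ HH ξ := by
    intro ξ hξ
    obtain ⟨η, h4, h5⟩ := hHne ξ hξ
    exact csInf_mem ⟨η, h5⟩
  have hHmono : ∀ ξ ξ', ξ ≤ ξ' → ξ' < τ' → H ξ ≤ H ξ' := by
    intro ξ ξ' h4 h5
    refine csInf_le' fun h6 => hHmem ξ' h5 (h6.mono fun a ha _ => ⟨ha.1, fun h7 => ha.2 ?_⟩)
    obtain ⟨b, h8, h9, h10⟩ := h7
    exact ⟨b, h8, h4.trans h9, h10⟩
  -- definability of `H`
  have hdHH : DP (fun v => (v 1).rank ∈ HH (v 0).rank) := by
    have h4 : DP (fun v => (v 0).rank ∈ A ∧ ¬ ∃ b, C (v 0).rank b ∧ (v 2).rank ≤ b ∧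
        b ≤ (v 3).rank) := by
      refine (DPs.at hA 0).and (DP.not ?_)
      refine DP.exO (Q := fun b v => C (v 0).rank b ∧ (v 2).rank ≤ b ∧ b ≤ (v 3).rank) ?_
      exact (hC.rename (fun n => if n = 0 then 1 else 0)).and
        ((DP.rank_le 3 0).and (DP.rank_le 0 4))
    have h5 : DP (fun v => Stat {a | a ∈ A ∧ ¬ ∃ b, C a b ∧ (v 1).rank ≤ b ∧
        b ≤ (v 2).rank} (v 0).rank) :=
      DP.statV (Q := fun a v => a ∈ A ∧ ¬ ∃ b, C a b ∧ (v 1).rank ≤ b ∧ b ≤ (v 2).rank) h4 0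
    exact (dp_subst_at (Q := fun x v => Stat {a | a ∈ A ∧ ¬ ∃ b, C a b ∧ (v 0).rank ≤ b ∧
        b ≤ (v 1).rank} x) h5 τ').not
  have hdH := dp_sInf hdHH
  -- the set `E`
  let E : Set Ordinal.{0} := {β | β < τ' ∧ ∀ ξ < β, H ξ < β}
  have hdE : DPs E := by
    have h4 : DP (fun v => ∀ ξ : Ordinal.{0}, ξ < (v 0).rank → ∃ z, H ξ = z ∧
        z < (v 0).rank) := by
      refine DP.allO (Q := fun ξ v => ξ < (v 0).rank → ∃ z, H ξ = z ∧ z < (v 0).rank) ?_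
      refine (DP.rank_lt 0 1).imp ?_
      refine DP.exO (Q := fun z v => H (v 0).rank = z ∧ z < (v 1).rank) ?_
      exact (hdH 1 0).and (DP.rank_lt 0 2)
    refine ((DP.rank_lt_ord 0 τ').and h4).congr fun v => ?_
    refine and_congr_right fun _ => forall_congr' fun ξ => imp_congr_right fun _ => ?_
    constructor
    · intro h
      exact ⟨_, rfl, h⟩
    · rintro ⟨z, rfl, h⟩
      exact h
  have hEu : ∀ β < τ', ∃ b ∈ E, β < b ∧ b < τ' := by
    intro β hβ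
    obtain ⟨s, hs1, hs2, -, hs3⟩ := exists_lim hcof (fun x => succ (max x (H x)))
      (fun x hx => ⟨lt_succ_iff.2 (le_max_left _ _), hlim'.succ_lt (max_lt hx (hHlt x hx))⟩) β hβ
    refine ⟨s, ⟨hs2, fun ξ hξ => ?_⟩, hs1, hs2⟩
    obtain ⟨x, h4, h5, h6⟩ := hs3 ξ hξ
    exact (hHmono ξ x h4.le h5).trans_lt ((lt_succ_iff.2 (le_max_right _ _)).trans h6)
  have hEnum := h2 τ' E hτ' hdE hEu
  -- the relation `R`
  let R : Ordinal.{0} → Ordinal.{0} → Prop := fun a i => i < τ ∧ ∃ β, Enum E i β ∧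
    ∃ b, C a b ∧ β ≤ b ∧ ∀ β', Enum E (i + 1) β' → b < β'
  have hdR : DP (fun v => R (v 0).rank (v 1).rank) := by
    refine (DP.rank_lt_ord 1 τ).and ?_
    refine DP.exO (Q := fun β v => Enum E (v 1).rank β ∧ ∃ b, C (v 0).rank b ∧ β ≤ b ∧
      ∀ β', Enum E ((v 1).rank + 1) β' → b < β') ?_
    refine ((DP.enum hdE).rename (fun n => if n = 0 then 2 else 0)).and ?_
    refine DP.exO (Q := fun b v => C (v 1).rank b ∧ (v 0).rank ≤ b ∧
      ∀ β', Enum E ((v 2).rank + 1) β' → b < β') ?_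
    refine (hC.rename (fun n => if n = 0 then 2 else 0)).and ((DP.rank_le 1 0).and ?_)
    refine DP.allO (Q := fun β' v => Enum E ((v 3).rank + 1) β' → (v 0).rank < β') ?_
    exact (dp_enum_succ hdE 4 0).imp (DP.rank_lt 1 0)
  have hRb : ∀ a ∈ A, ∃ s < τ, ∀ i, R a i → i ≤ s := by
    intro a ha
    refine h3 τ {i | R a i} hτ (DP.subst_ord (Q := R) hdR a 0) (fun i hi => hi.1) ?_
    obtain ⟨ζ, hζ, g, hg1, hg2⟩ := hCo a ha
    have hsel : ∀ i, ∃ b, R a i → ∃ β, Enum E i β ∧ C a b ∧ β ≤ b ∧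
        ∀ β', Enum E (i + 1) β' → b < β' := by
      intro i
      by_cases hi : R a i
      · obtain ⟨-, β, h4, b, h5, h6, h7⟩ := hi
        exact ⟨b, fun _ => ⟨β, h4, h5, h6, h7⟩⟩
      · exact ⟨0, fun h => absurd h hi⟩
    choose b hb using hsel
    refine ⟨ζ, hζ, fun i => g (b i), ?_, ?_⟩
    · intro i hi
      obtain ⟨β, -, h5, -, -⟩ := hb i hi
      exact hg1 _ h5
    · intro i hi i' hi' hii
      obtain ⟨β, h4, h5, h6, h7⟩ := hb i hi
      obtain ⟨β', h4', h5', h6', h7'⟩ := hb i' hi'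
      refine hg2 _ h5 _ h5' ?_
      obtain ⟨β'', -, h8⟩ := hEnum (i + 1) ((add_one_le_iff.2 hii).trans_lt (hi'.1.trans hlt))
      exact (h7 β'' h8).trans_le ((enum_le h8 h4' (add_one_le_iff.2 hii)).trans h6')
  let φ : Ordinal.{0} → Ordinal.{0} := fun a => sInf {s | ∀ i, R a i → i ≤ s}
  have hφm : ∀ a ∈ A, ∀ i, R a i → i ≤ φ a := by
    intro a ha
    obtain ⟨s, -, hs⟩ := hRb a ha
    exact csInf_mem (s := {s | ∀ i, R a i → i ≤ s}) ⟨s, hs⟩
  refine ⟨φ, ?_, ?_, ?_⟩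
  · refine dp_sInf (S := fun a => {s | ∀ i, R a i → i ≤ s}) ?_ 0 1
    refine DP.allO (Q := fun i v => R (v 0).rank i → i ≤ (v 1).rank) ?_
    exact (hdR.rename (fun n => if n = 0 then 1 else 0)).imp (DP.rank_le 0 2)
  · intro a ha
    obtain ⟨s, hs, hs'⟩ := hRb a ha
    exact (csInf_le' (s := {s | ∀ i, R a i → i ≤ s}) hs').trans_lt hs
  · intro i hi hstat
    have hi1 : i + 1 < τ := by
      rw [← Order.succ_eq_add_one]
      exact hlim.succ_lt hi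
    obtain ⟨β, hβ, h4⟩ := hEnum i (hi.trans hlt)
    obtain ⟨β', hβ', h5⟩ := hEnum (i + 1) (hi1.trans hlt)
    have h6 : β < β' := enum_lt h4 h5 (lt_add_one i)
    have h7 : H β < β' := h5.1.2 β h6
    refine hHmem β hβ (hstat.mono fun a ha _ => ⟨ha.1, ?_⟩)
    rintro ⟨b, h8, h9, h10⟩
    refine ha.2 (hφm a ha.1 i ⟨hi, β, h4, b, h8, h9, fun β'' h11 => ?_⟩)
    rw [← enum_unique h5 h11]
    exact h10.trans_lt h7

end Pool.Agent.Helper86.HU.ME
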